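import Mathlib
set_option autoImplicit false

namespace Pool.Agent.Results.MP_bdabc0_co.No
open Finset

/-- `BP(d, C; w)` is feasible. -/
def Feasible {n : ℕ} (w : Fin n → ℕ) (d : ℕ) (C : Fin n → ℤ) : Prop :=
  ∃ B : Fin n → Multiset ℕ, ∑ i, B i = d • univ.val.map w ∧
    ∀ i, (B i).card = d ∧ ((B i).sum : ℤ) ≤ C i

/-- the conjugate partition. -/
def conj (l : List ℕ) : List ℕ :=
  (List.range' 1 (l.foldr max 0)).map fun j => l.countP fun x => decide (j ≤ x)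

/-- the sum defining `b`; the arguments are the conjugate, `h_{t-1}` and `[h_t, ..., h_k]`. -/
def bAux (c : List ℕ) : ℕ → List ℕ → ℕ
  | _, [] => 0
  | p, [h] => (p - h) * (c.count h - 1) + (h - 1) * (c.count h - 1)
  | p, h :: h' :: t => (p - h) * (c.count h - 1) + bAux c h (h' :: t)

/-- `b(λ)`: the parts `h_1 > ... > h_k` are the distinct parts of the conjugate below the length. -/
def b (l : List ℕ) : ℕ := bAux (conj l) l.length ((conj l).dedup.filter fun h => decide (h < l.length))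

/-- `b_i = b(w_i, ..., w_n)`. -/
def bi {n : ℕ} (w : Fin n → ℕ) (i : Fin n) : ℤ := b ((List.ofFn w).drop i)

/-- `C` is non-increasing and `C_i + ... + C_n ≥ d (w_i + ... + w_n) + c_i` for all `i`. -/
def Sat {n : ℕ} (w : Fin n → ℕ) (c : Fin n → ℤ) (d : ℕ) (C : Fin n → ℤ) : Prop :=
  Antitone C ∧ ∀ i, (d : ℤ) * ∑ j ∈ Ici i, (w j : ℤ) + c i ≤ ∑ j ∈ Ici i, C j

def Strict {n : ℕ} (w : Fin n → ℕ) (c : Fin n → ℤ) (d : ℕ) : Prop :=
  {C | Sat w (bi w) d C} ⊂ {C | Sat w c d C}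

def w0 : Fin 5 → ℕ := ![7, 6, 4, 4, 0]

def c0 : Fin 5 → ℤ := ![4, 5, 6, 3, 0]

theorem bi_w0 : bi w0 = ![5, 5, 6, 3, 0] := by
  funext i
  fin_cases i <;> decide +kernel

theorem sat_iff (c : Fin 5 → ℤ) (d : ℕ) (C : Fin 5 → ℤ) : Sat w0 c d C ↔
    (C 1 ≤ C 0 ∧ C 2 ≤ C 1 ∧ C 3 ≤ C 2 ∧ C 4 ≤ C 3) ∧
    21 * d + c 0 ≤ C 0 + C 1 + C 2 + C 3 + C 4 ∧ 14 * d + c 1 ≤ C 1 + C 2 + C 3 + C 4 ∧
    8 * d + c 2 ≤ C 2 + C 3 + C 4 ∧ 4 * d + c 3 ≤ C 3 + C 4 ∧ c 4 ≤ C 4 := by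
  have e0 : Ici (0 : Fin 5) = {0, 1, 2, 3, 4} := by decide
  have e1 : Ici (1 : Fin 5) = {1, 2, 3, 4} := by decide
  have e2 : Ici (2 : Fin 5) = {2, 3, 4} := by decide
  have e3 : Ici (3 : Fin 5) = {3, 4} := by decide
  have e4 : Ici (4 : Fin 5) = {4} := by decide
  refine and_congr ?_ ?_
  · rw [Fin.antitone_iff_succ_le]
    simp [Fin.forall_fin_succ]
  · simp only [Fin.forall_fin_succ, IsEmpty.forall_iff, and_true]
    change (_ + c 0 ≤ ∑ j ∈ Ici (0 : Fin 5), C j) ∧ (_ + c 1 ≤ ∑ j ∈ Ici (1 : Fin 5), C j) ∧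
      (_ + c 2 ≤ ∑ j ∈ Ici (2 : Fin 5), C j) ∧ (_ + c 3 ≤ ∑ j ∈ Ici (3 : Fin 5), C j) ∧
      (_ + c 4 ≤ ∑ j ∈ Ici (4 : Fin 5), C j) ↔ _
    have f0 : ∑ j ∈ Ici (0 : Fin 5), (w0 j : ℤ) = 21 := by decide +kernel
    have f1 : ∑ j ∈ Ici (Fin.succ 0 : Fin 5), (w0 j : ℤ) = 14 := by decide +kernel
    have f2 : ∑ j ∈ Ici (Fin.succ 0).succ, (w0 j : ℤ) = 8 := by decide +kernel
    have f3 : ∑ j ∈ Ici (Fin.succ 0).succ.succ, (w0 j : ℤ) = 4 := by decide +kernel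
    have f4 : ∑ j ∈ Ici (Fin.succ 0).succ.succ.succ, (w0 j : ℤ) = 0 := by decide +kernel
    rw [f0, f1, f2, f3, f4, e0, e1, e2, e3, e4]
    simp only [mem_insert, mem_singleton, Fin.reduceEq, or_self, not_false_eq_true, sum_insert,
      sum_singleton]
    omega

theorem peel {d : ℕ} {C : Fin 5 → ℤ} (p : Fin 5 → ℕ) (hp : univ.val.map p = univ.val.map w0)
    (h : Feasible w0 d fun i => C i - p i) : Feasible w0 (d + 1) C := by
  obtain ⟨B, h1, h2⟩ := h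
  refine ⟨fun i => {p i} + B i, ?_, fun i => ⟨by simp [(h2 i).1, add_comm], ?_⟩⟩
  · rw [sum_add_distrib, h1, succ_nsmul', ← hp]
    congr 1
  · have := (h2 i).2
    simp only [Multiset.sum_add, Multiset.sum_singleton, Nat.cast_add] at this ⊢
    omega

def P : List (ℕ × ℕ × ℕ × ℕ × ℕ) := [(7, 6, 4, 4, 0), (7, 6, 4, 0, 4), (7, 6, 0, 4, 4), (7, 4, 6, 4, 0), (7, 4, 6, 0, 4), (7, 4, 4, 6, 0), (7, 4, 4, 0, 6), (7, 4, 0, 6, 4), (7, 4, 0, 4, 6), (7, 0, 6, 4, 4), (7, 0, 4, 6, 4), (7, 0, 4, 4, 6), (6, 7, 4, 4, 0), (6, 7, 4, 0, 4), (6, 7, 0, 4, 4), (6, 4, 7, 4, 0), (6, 4, 7, 0, 4), (6, 4, 4, 7, 0), (6, 4, 4, 0, 7), (6, 4, 0, 7, 4), (6, 4, 0, 4, 7), (6, 0, 7, 4, 4), (6, 0, 4, 7, 4), (6, 0, 4, 4, 7), (4, 7, 6, 4, 0), (4, 7, 6, 0, 4), (4, 7, 4, 6, 0), (4, 7, 4, 0, 6), (4, 7, 0, 6, 4), (4, 7, 0, 4, 6), (4, 6, 7, 4, 0), (4, 6, 7, 0, 4), (4, 6, 4, 7, 0), (4, 6, 4, 0, 7), (4, 6, 0, 7,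 4), (4, 6, 0, 4, 7), (4, 4, 7, 6, 0), (4, 4, 7, 0, 6), (4, 4, 6, 7, 0), (4, 4, 6, 0, 7), (4, 4, 0, 7, 6), (4, 4, 0, 6, 7), (4, 0, 7, 6, 4), (4, 0, 7, 4, 6), (4, 0, 6, 7, 4), (4, 0, 6, 4, 7), (4, 0, 4, 7, 6), (4, 0, 4, 6, 7), (0, 7, 6, 4, 4), (0, 7, 4, 6, 4), (0, 7, 4, 4, 6), (0, 6, 7, 4, 4), (0, 6, 4, 7, 4), (0, 6, 4, 4, 7), (0, 4, 7, 6, 4), (0, 4, 7, 4, 6), (0, 4, 6, 7, 4), (0, 4, 6, 4, 7), (0, 4, 4, 7, 6), (0, 4, 4, 6, 7)]

def frc (n : ℕ) (k : ℕ → Bool) : Bool := Nat.casesOn n (k 0) fun m => k m.succ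

theorem frc_eq (n : ℕ) (k : ℕ → Bool) : frc n k = k n := by cases n <;> rfl

def go : ℕ → ℕ → ℕ → ℕ → ℕ → ℕ → Bool
  | 0, _, _, _, _, _ => true
  | d + 1, a, b, c, e, f => frc a fun a => frc b fun b => frc c fun c => frc e fun e =>
      frc f fun f => frc (7 * d + 4) fun m => P.any fun p =>
      Nat.ble p.1 a && Nat.ble p.2.1 b && Nat.ble p.2.2.1 c &&
      Nat.ble p.2.2.2.1 e && Nat.ble p.2.2.2.2 f && Nat.ble (a - p.1) m &&
      Nat.ble (b - p.2.1) m && Nat.ble (c - p.2.2.1) m &&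
      Nat.ble (e - p.2.2.2.1) m && Nat.ble (f - p.2.2.2.2) m &&
      go d (a - p.1) (b - p.2.1) (c - p.2.2.1) (e - p.2.2.2.1) (f - p.2.2.2.2)

theorem hP : ∀ p ∈ P, univ.val.map ![p.1, p.2.1, p.2.2.1, p.2.2.2.1, p.2.2.2.2] =
    univ.val.map w0 := by decide +kernel

theorem go_spec (d : ℕ) : ∀ a b c e f : ℕ, go d a b c e f = true →
    Feasible w0 d ![(a : ℤ), b, c, e, f] := by
  induction d with
  | zero =>
    intro a b c e f _
    refine ⟨fun _ => 0, by simp, fun i => ⟨rfl, ?_⟩⟩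
    fin_cases i <;> simp
  | succ d ih =>
    intro a b c e f h
    simp only [go, frc_eq, List.any_eq_true, Bool.and_eq_true, Nat.ble_eq] at h
    obtain ⟨p, hp, ⟨⟨⟨⟨⟨⟨⟨⟨⟨h1, h2⟩, h3⟩, h4⟩, h5⟩, -⟩, -⟩, -⟩, -⟩, -⟩, h⟩ := h
    refine peel _ (hP p hp) ?_
    convert ih _ _ _ _ _ h using 1
    funext i
    fin_cases i <;> simp [*]

theorem base0 : ∀ f ∈ List.range 18, ∀ e ∈ List.range' f (23 - f), ∀ c ∈ List.range' e (30 - e),
    ∀ b ∈ List.range' c (28 - c), (Nat.ble 19 (e + f) && Nat.ble 38 (c + e + f) &&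
      Nat.ble 61 (b + c + e + f) && Nat.ble (b + b + c + e + f) 88) = true →
    go 4 (88 - (b + c + e + f)) b c e f = true := by decide +kernel

theorem mono {d : ℕ} {C D : Fin 5 → ℤ} (h : Feasible w0 d C) (hCD : ∀ i, C i ≤ D i) :
    Feasible w0 d D := by
  obtain ⟨B, h1, h2⟩ := h
  exact ⟨B, h1, fun i => ⟨(h2 i).1, (h2 i).2.trans (hCD i)⟩⟩

theorem base (k : ℕ) : ∀ C : Fin 5 → ℤ, C 0 + C 1 + C 2 + C 3 + C 4 = 88 + k → Sat w0 c0 4 C →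
    Feasible w0 4 C := by
  have k0 : c0 0 = 4 := rfl
  have k1 : c0 1 = 5 := rfl
  have k2 : c0 2 = 6 := rfl
  have k3 : c0 3 = 3 := rfl
  have k4 : c0 4 = 0 := rfl
  induction k with
  | zero =>
    intro C hs h
    rw [sat_iff, k0, k1, k2, k3, k4] at h
    obtain ⟨f, hf⟩ := Int.eq_ofNat_of_zero_le (show 0 ≤ C 4 by omega)
    obtain ⟨e, he⟩ := Int.eq_ofNat_of_zero_le (show 0 ≤ C 3 by omega)
    obtain ⟨c, hc⟩ := Int.eq_ofNat_of_zero_le (show 0 ≤ C 2 by omega)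
    obtain ⟨b, hb⟩ := Int.eq_ofNat_of_zero_le (show 0 ≤ C 1 by omega)
    have := go_spec _ _ _ _ _ _ (base0 f (List.mem_range.2 (by omega)) e
      (List.mem_range'_1.2 (by omega)) c (List.mem_range'_1.2 (by omega)) b
      (List.mem_range'_1.2 (by omega)) (by
        simp only [Bool.and_eq_true, Nat.ble_eq]
        omega))
    refine mono this fun i => ?_
    fin_cases i <;> simp <;> omega
  | succ k ih =>
    intro C hs h
    rw [sat_iff, k0, k1, k2, k3, k4] at h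
    have key : ∀ j : Fin 5, Sat w0 c0 4 (fun i => C i - if i = j then 1 else 0) →
        Feasible w0 4 C := by
      intro j hj
      refine mono (ih _ ?_ hj) fun i => by split_ifs <;> omega
      fin_cases j <;> simp <;> omega
    by_cases h0 : C 1 < C 0
    · refine key 0 ?_
      rw [sat_iff, k0, k1, k2, k3, k4]
      simp
      omega
    by_cases h1 : C 2 < C 1
    · refine key 1 ?_
      rw [sat_iff, k0, k1, k2, k3, k4]
      simp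
      omega
    by_cases h2 : C 3 < C 2
    · refine key 2 ?_
      rw [sat_iff, k0, k1, k2, k3, k4]
      simp
      omega
    by_cases h3 : C 4 < C 3
    · refine key 3 ?_
      rw [sat_iff, k0, k1, k2, k3, k4]
      simp
      omega
    · refine key 4 ?_
      rw [sat_iff, k0, k1, k2, k3, k4]
      simp
      omega

theorem feas (d : ℕ) (hd : 4 ≤ d) : ∀ C, Sat w0 c0 d C → Feasible w0 d C := by
  have k0 : c0 0 = 4 := rfl
  have k1 : c0 1 = 5 := rfl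
  have k2 : c0 2 = 6 := rfl
  have k3 : c0 3 = 3 := rfl
  have k4 : c0 4 = 0 := rfl
  induction d, hd using Nat.le_induction with
  | base =>
    intro C h
    have h1 := (sat_iff _ _ _).1 h
    rw [k0] at h1
    obtain ⟨k, hk⟩ := Int.eq_ofNat_of_zero_le
      (show 0 ≤ C 0 + C 1 + C 2 + C 3 + C 4 - 88 by omega)
    exact base k C (by omega) h
  | succ d hd ih =>
    intro C h
    rw [sat_iff, k0, k1, k2, k3, k4] at h
    refine peel w0 rfl ?_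
    set D : Fin 5 → ℤ := fun i => C i - w0 i with hD
    have d0 : D 0 = C 0 - 7 := rfl
    have d1 : D 1 = C 1 - 6 := rfl
    have d2 : D 2 = C 2 - 4 := rfl
    have d3 : D 3 = C 3 - 4 := rfl
    have d4 : D 4 = C 4 - 0 := rfl
    clear_value D
    have g1 : ∀ i, 0 ≤ D i ∧ 14 * d + 5 ≤ D 0 + D 1 + D 2 + D 3 + D 4 - D i := by
      intro i
      fin_cases i <;> simp <;> omega
    have g2 : ∀ i j, i ≠ j → 4 * d + 3 ≤ D i + D j ∧
        8 * d + 6 ≤ D 0 + D 1 + D 2 + D 3 + D 4 - D i - D j := by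
      intro i j
      fin_cases i <;> fin_cases j <;> simp <;> omega
    set σ := Tuple.sort fun i => -D i with hσ
    have hm : Monotone ((fun i => -D i) ∘ σ) := Tuple.monotone_sort _
    have hs := Equiv.sum_comp σ D
    rw [Fin.sum_univ_five, Fin.sum_univ_five] at hs
    have m0 : -D (σ 0) ≤ -D (σ 1) := hm (by decide)
    have m1 : -D (σ 1) ≤ -D (σ 2) := hm (by decide)
    have m2 : -D (σ 2) ≤ -D (σ 3) := hm (by decide)
    have m3 : -D (σ 3) ≤ -D (σ 4) := hm (by decide)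
    have a0 := g1 (σ 0)
    have a4 := g1 (σ 4)
    have a1 := g2 (σ 0) (σ 1) (σ.injective.ne (by decide))
    have a3 := g2 (σ 3) (σ 4) (σ.injective.ne (by decide))
    obtain ⟨B, b1, b2⟩ := ih (fun i => D (σ i)) (by
      rw [sat_iff, k0, k1, k2, k3, k4]
      omega)
    refine ⟨fun i => B (σ.symm i), (Equiv.sum_comp σ.symm B).trans b1, fun i => ?_⟩
    simpa using b2 (σ.symm i)

theorem result :
    (Antitone w0 ∧ (∀ i, c0 i ≤ bi w0 i) ∧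
      ∀ d, 4 ≤ d → Strict w0 c0 d ∧ ∀ C, Sat w0 c0 d C → Feasible w0 d C) ∧
    ¬ ∀ (n : ℕ) (w : Fin n → ℕ) (c : Fin n → ℤ), 1 ≤ n → Antitone w → (∀ i, c i ≤ bi w i) →
      ∃ d0, ∀ d, d0 ≤ d → Strict w c d → ∃ C, Sat w c d C ∧ ¬ Feasible w d C := by
  have h1 : Antitone w0 := by decide
  have h2 : ∀ i, c0 i ≤ bi w0 i := by
    rw [bi_w0]
    decide
  have h3 : ∀ d, 4 ≤ d → Strict w0 c0 d := by
    intro d hd
    refine ⟨fun C hC => ⟨hC.1, fun i => le_trans (by linarith [h2 i]) (hC.2 i)⟩, fun h => ?_⟩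
    have h4 : Sat w0 (bi w0) d ![7 * d - 1, 6 * d - 1, 4 * d + 3, 4 * d, 3] := h (by
      change Sat w0 c0 d _
      rw [sat_iff]
      simp [c0]
      omega)
    rw [sat_iff, bi_w0] at h4
    simp at h4
    omega
  refine ⟨⟨h1, h2, fun d hd => ⟨h3 d hd, feas d hd⟩⟩, fun h => ?_⟩
  obtain ⟨d0, hd⟩ := h 5 w0 c0 (by norm_num) h1 h2
  obtain ⟨C, a1, a2⟩ := hd (max d0 4) (le_max_left _ _) (h3 _ (le_max_right _ _))
  exact a2 (feas _ (le_max_right _ _) C a1)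

end Pool.Agent.Results.MP_bdabc0_co.No
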